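import Pool.Agent.Lib.MP_8f66f0_al_Stab.TopS

/-! # The Chern character of the Whitehead group in negative cyclic homology -/

set_option autoImplicit false

namespace Pool.Agent.Lib.MP_8f66f0_al_Old.ChernCharacter

open Pool.Agent.Lib.MP_8f66f0_al_Mixed Pool.Agent.Lib.MP_8f66f0_al_ChernS
  Pool.Agent.Lib.MP_8f66f0_al_Stab

/-- Let `Γ` be a torsion-free group. For every invertible matrix `A` over the integral group ring
of `Γ`, with inverse `B`, there is an element `γ` of `Γ` such that the Chern character of `A` in
negative cyclic homology has the same pairing as that of `γ` with every integral mixed cocycle `b`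
of every level `k` (a cocycle of the truncated (b, B)-complex) all of whose classes `c ≠ 1` satisfy:
`b (c; []) ≠ 0` and `c` has a stable centralizer, or `b (c; []) = 0` and `c` has few roots or few
powers. There is no condition on the class of `1`, where `b` consists of integral classes in
`H^(2m+1)(Γ)`. If the Whitehead group of `Γ` is trivial, then `A` is `± γ` up to stabilization and
elementary matrices, and the equality holds. -/
theorem result.{u} (Γ : Type u) [Group Γ]
    (htf : ∀ g : Γ, ∀ m : ℕ, 0 < m → g ^ m = 1 → g = 1) (n : ℕ)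
    (A B : Matrix (Fin n) (Fin n) (MonoidAlgebra ℤ Γ)) (hAB : A * B = 1) (hBA : B * A = 1) :
    ∃ γ : Γ, ∀ (k : ℕ) (b : Γ → List Γ → ℤ), IsMixed k b →
      (∀ c u, c ≠ 1 → b c u ≠ 0 →
        (b c [] ≠ 0 ∧ StableCentralizer c) ∨ (b c [] = 0 ∧ (FewRoots c ∨ FewPowers c))) →
      mixedChern k A B b =
        mixedChern k !![MonoidAlgebra.single γ (1 : ℤ)] !![MonoidAlgebra.single γ⁻¹ (1 : ℤ)] b :=
  topS htf n A B hAB hBA

end Pool.Agent.Lib.MP_8f66f0_al_Old.ChernCharacter
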