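import Mathlib
import Pool.Agent.Lib.MP_8f66f0_al_Cong.Elem
import Pool.Agent.Lib.MP_8f66f0_al_Cong.UnitsC
import Pool.Agent.Lib.MP_8f66f0_al_Cong.Full
import Pool.Agent.Lib.MP_8f66f0_al_Cong.ClassN

/-! # Elements of the Whitehead group which are trivial modulo `N` -/

set_option autoImplicit false

namespace Pool.Agent.Results.MP_8f66f0_al.Congruence

open Pool.Agent.Cong Pool.Agent.Lib.MP_8f66f0_al_Cong

/-- Let `Γ` be a torsion-free group and `N ≥ 2` an integer, such that every finitely generated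
subgroup of `Γ` is in the class `CongGroup N` or has only classes `c ≠ 1` with `CongClass N c`.
Let `A` be an invertible matrix of size `n ≥ 2` over the integral group ring of `Γ` which is
modulo `N` a product of elementary matrices and of a diagonal matrix with the entries `u g` (`u` an
integer, `g` in `Γ`) and `1`. Then there is a sign `ε`, congruent to `u` modulo `N`, such that `A`
is modulo every power of `N` a product of elementary matrices and of the diagonal matrix with the
entries `ε g` and `1`. So an element of the Whitehead group of `Γ` which vanishes in the Whitehead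
group of `Γ` over `ℤ/N` vanishes in the Whitehead groups of `Γ` over all `ℤ/N ^ k`. -/
theorem result.{v, u} (Γ : Type u) [Group Γ]
    (htf : ∀ g : Γ, ∀ m : ℕ, 0 < m → g ^ m = 1 → g = 1) (N : ℕ) (hN : 2 ≤ N)
    (hΓ : ∀ H : Subgroup Γ, H.FG → CongGroup.{v} N H ∨ ∀ c : H, c ≠ 1 → CongClass.{v} N c)
    (n : ℕ) (hn : 2 ≤ n) (i : Fin n) (A E₀ : (Matrix (Fin n) (Fin n) (MonoidAlgebra ℤ Γ))ˣ)
    (hE₀ : E₀ ∈ elemGroup (Fin n) (MonoidAlgebra ℤ Γ)) (g : Γ) (u : ℤ)
    (Z₀ : Matrix (Fin n) (Fin n) (MonoidAlgebra ℤ Γ))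
    (hA : (A : Matrix (Fin n) (Fin n) (MonoidAlgebra ℤ Γ)) =
      E₀ * dg i (MonoidAlgebra.single g u) + N • Z₀) :
    ∃ ε : ℤ, (ε = 1 ∨ ε = -1) ∧ (N : ℤ) ∣ u - ε ∧ ∀ k : ℕ,
      ∃ E ∈ elemGroup (Fin n) (MonoidAlgebra ℤ Γ),
        ∃ Z : Matrix (Fin n) (Fin n) (MonoidAlgebra ℤ Γ),
          (A : Matrix (Fin n) (Fin n) (MonoidAlgebra ℤ Γ)) =
            E * dg i (MonoidAlgebra.single g ε) + (N ^ k) • Z := by
  refine cong_final.{v} htf hN (fun H hH c hc => ?_) hn i A E₀ hE₀ g u Z₀ hA
  rcases hΓ H hH with h | h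
  · have hFG : Group.FG H := (Group.fg_iff_subgroup_fg H).mpr hH
    refine congClass_of_group (fun x m hm hx => ?_) h c hc
    apply Subtype.ext
    refine htf _ m hm ?_
    have := congrArg Subtype.val hx
    simpa using this
  · exact h c hc

end Pool.Agent.Results.MP_8f66f0_al.Congruence
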