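import Pool.Agent.Lib.MP_8f66f0_al_TQ.VVU

/-! # Vanishing of the Whitehead group of torsion free groups which are built from finite groups
and linear groups of degree 2 and 3 by extensions, directed unions, elementary amenable quotients,
and actions on CAT(0) cube complexes and 2-complexes -/

set_option autoImplicit false

namespace Pool.Agent.Lib.MP_8f66f0_al_Old.CubeComplexes

open Pool.Agent.WhVan

/-- Let `YC` be the least class of groups which contains all finite groups and all torsion free
subgroups of `GL_2(R)`, for all commutative rings `R` of positive characteristic (`m = 0` in `R`
for some `m > 0`) and all rings `R` which can be embedded in a purely transcendental extension of
`ℚ`, and is closed under isomorphism, subgroups, directed unions, extensions, actions on trees and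
on CAT(0) cube complexes of finite dimension (given by their `1`-skeleton, a median graph which
contains no cube of dimension `N + 1`) with all vertex stabilizers in the class (inversions are
allowed, and there is no condition of local finiteness), and representations in `GL_2(R)` for
arbitrary commutative rings `R` (it is enough that all subgroups with integral traces and
determinants are in the class). Let `VC` be the least class of groups which contains all torsion
free groups in `YC` and all torsion free subgroups of `GL_3(R)`, for all commutative rings `R` of
positive characteristic, and is closed under isomorphism, subgroups, directed unions, extensions,
actions without inversions on trees with all vertex stabilizers in the class, actions on CAT(0)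
cube complexes of finite dimension with the stabilizers of all cubes in the class, actions on
2-complexes which satisfy the metric conditions `Met` with all vertex stabilizers in the class,
representations in `GL_2(R)` and `GL_3(R)` for arbitrary commutative rings `R` (it is enough that
all subgroups with integral characteristic polynomials are in the class), and elementary amenable
quotients (for `θ : Γ → Q`, `Q` elementary amenable, it is enough that all subgroups with a finite
image in `Q` are in the class; so all torsion free elementary amenable groups are in the class).

For all groups `Γ` in `VC` and all Euclidean domains `L`, `K_1(LΓ)` is generated by the units of
`L` and the elements of `Γ`. For `L = ℤ` this is the vanishing of the Whitehead group of `Γ`, in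
the form of the frozen statement. -/
theorem result {Γ : Type} [Group Γ] (h : VC Γ) (L : Type) [CommRing L] [IsDomain L]
    (hL : IsEuc L) : K1Units L Γ :=
  vv_all h L hL

end Pool.Agent.Lib.MP_8f66f0_al_Old.CubeComplexes
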