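import Pool.Agent.Lib.MP_8f66f0_al_LG.Conv

/-! # Vanishing of the Whitehead group of torsion free linear groups of positive characteristic,
and of all torsion free groups which are built from finite groups and linear groups by extensions,
directed unions, elementary amenable quotients, and actions on buildings of `GL_d` and CAT(0) cube
complexes (definitions: `MP_8f66f0_al_LG/Defs`) -/

set_option autoImplicit false

namespace Pool.Agent.Lib.MP_8f66f0_al_Old.LinearGroups

open Pool.Agent.LinGr

/-- Let `YN` be the least class of groups which contains all finite groups, all torsion free
subgroups of `GL_d(R)`, for all `d` and all commutative rings `R` of positive characteristic
(`m = 0` in `R` for some `m > 0`), of `GL_2(R)`, for all rings `R` which can be embedded in a purely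
transcendental extension of `ℚ`, and of `GL_d(K)`, for all `d` and all fields `K` of characteristic
`0`, if the group is bounded at infinity (`CptInf`), and is closed under isomorphism, subgroups,
directed unions, extensions, actions on trees and on CAT(0) cube complexes of finite dimension
(given by their `1`-skeleton, a median graph which contains no cube of dimension `N + 1`) with all
vertex stabilizers in the class (inversions are allowed, and there is no condition of local
finiteness), representations in `GL_d(F)` with determinants of value `1` for a discrete valuation of
`F` (it is enough that all subgroups which fix a lattice are in the class), and representations in
`GL_d(R)` for arbitrary `d` and commutative rings `R` (it is enough that all subgroups with integral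
characteristic polynomials are in the class). Let `NC` be the least class of groups which contains
all torsion free groups in `YN` (so all torsion free subgroups of `GL_d(R)`, `R` of positive
characteristic) and is closed under isomorphism, subgroups, directed unions, extensions, actions
without inversions on trees with all vertex stabilizers in the class, actions on CAT(0) cube
complexes of finite dimension with the stabilizers of all cubes in the class, representations in
`GL_d(F)` and `GL_d(R)` as above, and elementary amenable quotients (for `θ : Γ → Q`, `Q` elementary
amenable, it is enough that all subgroups with a finite image in `Q` are in the class; so all
torsion free elementary amenable groups are in the class).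

For all groups `Γ` in `NC` and all Euclidean domains `L`, `K_1(LΓ)` is generated by the units of
`L` and the elements of `Γ`. For `L = ℤ` this is the vanishing of the Whitehead group of `Γ`, in
the form of the frozen statement. -/
theorem result {Γ : Type} [Group Γ] (h : NC Γ) (L : Type) [CommRing L] [IsDomain L]
    (hL : IsEuc L) : K1Units L Γ :=
  nc_k1 h L hL

end Pool.Agent.Lib.MP_8f66f0_al_Old.LinearGroups
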